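import Mathlib
import Pool.Agent.H443R3.Erg

set_option autoImplicit false

open MeasureTheory ProbabilityTheory Filter Topology
open scoped ENNReal Pointwise

/-!
# Coalescing random walks as a probabilistic cellular automaton

Symbols: `0` = empty, `1` = a particle that will stay, `2` = a particle that will move by `e`.
A site receives a particle when it holds a `1` or when the site `i - e` holds a `2`; particles
arriving at one site coalesce, and the new particle gets a fresh fair type.
-/

namespace Pool.Agent.Y779.Coal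

open Pool.Agent.H443R3

variable {d : ℕ}

/-- The law of a new symbol: a particle of a fair type, or nothing. -/
noncomputable def law (b : Prop) [Decidable b] : PMF (Fin 3) :=
  if b then PMF.uniformOfFinset {1, 2} ⟨1, by simp⟩ else PMF.pure 0

/-- The coalescing automaton with steps `0` and `e`. -/
noncomputable def coal (e : Site d) : PCA d (Fin 3) where
  nbhd := {0, -e}
  rule := fun u => law (u ⟨0, by simp⟩ = 1 ∨ u ⟨-e, by simp⟩ = 2)

theorem rule_coal (e : Site d) (x : Config d (Fin 3)) (i : Site d) :
    (coal e).rule ((coal e).pattern x i) = law (x i = 1 ∨ x (i - e) = 2) := by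
  simp [coal, PCA.pattern, sub_eq_add_neg]

/-- `0` if the site `i` holds the symbol `s`, else `1`. -/
noncomputable def N (s : Fin 3) (i : Site d) (x : Config d (Fin 3)) : ℝ≥0∞ :=
  if x i = s then 0 else 1

/-- `1` if the site `i` is empty, else `0`. -/
noncomputable def E (i : Site d) (x : Config d (Fin 3)) : ℝ≥0∞ :=
  if x i = 0 then 1 else 0

theorem E_eq (i : Site d) (x : Config d (Fin 3)) : E i x = N 1 i x * N 2 i x := by
  unfold E N
  have : x i = 0 ∨ x i = 1 ∨ x i = 2 := by
    generalize x i = s
    fin_cases s <;> simp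
  rcases this with h | h | h <;> simp [h]

theorem dependsOn_N (s : Fin 3) (i : Site d) :
    DependsOn (N s i) (({i} : Finset (Site d)) : Set (Site d)) := by
  intro x y h
  unfold N
  rw [h i (by simp)]

theorem dependsOn_E (i : Site d) : DependsOn (E i) (({i} : Finset (Site d)) : Set (Site d)) := by
  intro x y h
  unfold E
  rw [h i (by simp)]

/-- Integrating a function of one site against the step kernel. -/
theorem op_one (Φ : PCA d (Fin 3)) (i : Site d) (g : Fin 3 → ℝ≥0∞) (x : Config d (Fin 3)) :
    Φ.op (fun y => g (y i)) x = ∑ s : Fin 3, g s * Φ.rule (Φ.pattern x i) s := by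
  unfold PCA.op PCA.step
  have h : (Measure.infinitePi fun i : Site d => (Φ.rule (Φ.pattern x i)).toMeasure).map
      (fun y : Config d (Fin 3) => y i) = (Φ.rule (Φ.pattern x i)).toMeasure :=
    Measure.infinitePi_map_eval (fun i : Site d => (Φ.rule (Φ.pattern x i)).toMeasure) i
  have h2 : ∫⁻ y, g (y i) ∂(Measure.infinitePi fun i : Site d =>
      (Φ.rule (Φ.pattern x i)).toMeasure) = ∫⁻ s, g s ∂(Φ.rule (Φ.pattern x i)).toMeasure := by
    rw [← h, lintegral_map (by fun_prop) (by fun_prop)]
  rw [h2, lintegral_fintype]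
  refine Finset.sum_congr rfl fun s _ => ?_
  rw [PMF.toMeasure_apply_singleton _ _ (measurableSet_singleton s)]

theorem law_true_one {b : Prop} [Decidable b] (h : b) : law b 1 = 1 / 2 := by
  simp [law, h, PMF.uniformOfFinset_apply]

theorem law_true_two {b : Prop} [Decidable b] (h : b) : law b 2 = 1 / 2 := by
  simp [law, h, PMF.uniformOfFinset_apply]

theorem law_true_zero {b : Prop} [Decidable b] (h : b) : law b 0 = 0 := by
  simp [law, h, PMF.uniformOfFinset_apply]

theorem law_false_zero {b : Prop} [Decidable b] (h : ¬ b) : law b 0 = 1 := by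
  simp [law, h]

theorem law_false_one {b : Prop} [Decidable b] (h : ¬ b) : law b 1 = 0 := by
  simp [law, h]

theorem law_false_two {b : Prop} [Decidable b] (h : ¬ b) : law b 2 = 0 := by
  simp [law, h]

theorem op_E (e : Site d) (i : Site d) :
    (coal e).op (E i) = fun x => N 1 i x * N 2 (i - e) x := by
  funext x
  have h := op_one (coal e) i (fun s => if s = 0 then 1 else 0) x
  rw [rule_coal] at h
  have e1 : (fun y : Config d (Fin 3) => (fun s : Fin 3 => if s = 0 then (1 : ℝ≥0∞) else 0) (y i)) =
      E i := rfl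
  rw [e1] at h
  rw [h, Fin.sum_univ_three]
  by_cases hb : x i = 1 ∨ x (i - e) = 2
  · rw [law_true_zero hb]
    rcases hb with hb | hb <;> simp [N, hb]
  · rw [law_false_zero hb]
    push_neg at hb
    simp [N, hb.1, hb.2]

theorem op_N (e : Site d) (s : Fin 3) (hs : s = 1 ∨ s = 2) (i : Site d) :
    (coal e).op (N s i) = fun x => 1 / 2 + 1 / 2 * (coal e).op (E i) x := by
  funext x
  have h := op_one (coal e) i (fun s' => if s' = s then 0 else 1) x
  rw [rule_coal] at h
  have e1 : (fun y : Config d (Fin 3) =>
      (fun s' : Fin 3 => if s' = s then (0 : ℝ≥0∞) else 1) (y i)) = N s i := rfl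
  rw [e1] at h
  have e2 := congrFun (op_E e i) x
  have h12 : (1 / 2 : ℝ≥0∞) + 1 / 2 = 1 := ENNReal.add_halves 1
  rw [h, e2, Fin.sum_univ_three]
  by_cases hb : x i = 1 ∨ x (i - e) = 2
  · have e3 : N 1 i x * N 2 (i - e) x = 0 := by
      rcases hb with hb | hb <;> simp [N, hb]
    rw [law_true_zero hb, law_true_one hb, law_true_two hb, e3]
    rcases hs with rfl | rfl <;> simp
  · rw [law_false_zero hb, law_false_one hb, law_false_two hb]
    push_neg at hb
    have e3 : N 1 i x * N 2 (i - e) x = 1 := by
      simp [N, hb.1, hb.2]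
    rw [e3, mul_one (1 / 2 : ℝ≥0∞), h12]
    rcases hs with rfl | rfl <;> simp

/-- Indicator that the sites `a, a + e, …, a + (L - 1) e` are all empty. -/
noncomputable def V (e a : Site d) (L : ℕ) (x : Config d (Fin 3)) : ℝ≥0∞ :=
  ∏ j ∈ Finset.range L, E (a + (j : ℤ) • e) x

/-- The sites `a, a + e, …, a + (L - 1) e`. -/
def seg (e a : Site d) (L : ℕ) : Finset (Site d) :=
  (Finset.range L).image fun j : ℕ => a + (j : ℤ) • e

theorem mem_seg {e a : Site d} {L : ℕ} {y : Site d} :
    y ∈ seg e a L ↔ ∃ j < L, a + (j : ℤ) • e = y := by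
  simp [seg]

theorem dependsOn_V (e a : Site d) (L : ℕ) :
    DependsOn (V e a L) ((seg e a L : Finset (Site d)) : Set (Site d)) := by
  intro x y h
  unfold V
  refine Finset.prod_congr rfl fun j hj => ?_
  unfold E
  rw [h _ (Finset.mem_coe.2 (mem_seg.2 ⟨j, Finset.mem_range.1 hj, rfl⟩))]

theorem V_zero (e a : Site d) : V e a 0 = fun _ => 1 := by
  funext x; simp [V]

theorem V_succ (e a : Site d) (L : ℕ) :
    V e a (L + 1) = fun x => V e a L x * E (a + (L : ℤ) • e) x := by
  funext x
  simp [V, Finset.prod_range_succ]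

theorem V_succ' (e a : Site d) (L : ℕ) :
    V e (a - e) (L + 1) = fun x => E (a - e) x * V e a L x := by
  funext x
  unfold V
  rw [Finset.prod_range_succ', mul_comm]
  congr 1
  · simp
  · refine Finset.prod_congr rfl fun j _ => ?_
    have : a - e + ((j + 1 : ℕ) : ℤ) • e = a + (j : ℤ) • e := by
      push_cast
      rw [add_smul, one_smul]
      abel
    rw [this]

theorem smul_inj {e : Site d} (he : e ≠ 0) {m n : ℤ} (h : m • e = n • e) : m = n := by
  obtain ⟨k, hk⟩ := Function.ne_iff.1 he
  have := congrFun h k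
  simp only [Pi.smul_apply, smul_eq_mul] at this
  exact mul_right_cancel₀ (by simpa using hk) this

theorem disjoint_seg_last {e : Site d} (he : e ≠ 0) (a : Site d) (L : ℕ) :
    Disjoint (seg e a L) {a + (L : ℤ) • e} := by
  rw [Finset.disjoint_singleton_right]
  intro h
  obtain ⟨j, hj, hje⟩ := mem_seg.1 h
  have := smul_inj he (add_left_cancel hje)
  omega

theorem disjoint_seg_first {e : Site d} (he : e ≠ 0) (a : Site d) (L : ℕ) :
    Disjoint {a - e} (seg e a L) := by
  rw [Finset.disjoint_singleton_left]
  intro h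
  obtain ⟨j, hj, hje⟩ := mem_seg.1 h
  have h2 : ((j : ℤ)) • e = (-1 : ℤ) • e := by
    have : a + (j : ℤ) • e = a + (-1 : ℤ) • e := by rw [hje]; simp [sub_eq_add_neg]
    exact add_left_cancel this
  have := smul_inj he h2
  omega

theorem op_V_succ {e : Site d} (he : e ≠ 0) (a : Site d) (L : ℕ) :
    (coal e).op (V e a (L + 1)) =
      fun x => (coal e).op (V e a L) x * (coal e).op (E (a + (L : ℤ) • e)) x := by
  rw [V_succ]
  exact (coal e).op_mul (dependsOn_V e a L) (dependsOn_E _) (disjoint_seg_last he a L)

theorem op_V_succ' {e : Site d} (he : e ≠ 0) (a : Site d) (L : ℕ) :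
    (coal e).op (V e (a - e) (L + 1)) =
      fun x => (coal e).op (E (a - e)) x * (coal e).op (V e a L) x := by
  rw [V_succ']
  exact (coal e).op_mul (dependsOn_E _) (dependsOn_V e a L) (disjoint_seg_first he a L)

/-- The probability that an interval is empty after one step. -/
theorem op_V {e : Site d} (he : e ≠ 0) (a : Site d) (L : ℕ) :
    (coal e).op (V e a (L + 1)) =
      fun x => N 2 (a - e) x * (V e a L x * N 1 (a + (L : ℤ) • e) x) := by
  induction L with
  | zero =>
    rw [op_V_succ he, V_zero]
    funext x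
    simp only [op_E]
    simp [PCA.op, mul_comm]
  | succ L ih =>
    rw [op_V_succ he, ih]
    funext x
    simp only [op_E, V_succ, E_eq]
    have : a + ((L + 1 : ℕ) : ℤ) • e - e = a + (L : ℤ) • e := by
      push_cast
      rw [add_smul, one_smul]
      abel
    rw [this]
    ring

/-- The recursion, as an identity of functions. -/
theorem op_op_V {e : Site d} (he : e ≠ 0) (a : Site d) (L : ℕ) :
    (coal e).op ((coal e).op (V e a (L + 1))) = fun x =>
      1 / 4 * ((coal e).op (V e a L) x + (coal e).op (V e (a - e) (L + 1)) x +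
        (coal e).op (V e a (L + 1)) x + (coal e).op (V e (a - e) (L + 2)) x) := by
  conv_lhs => rw [op_V he]
  have d1 : DependsOn (fun x => V e a L x * N 1 (a + (L : ℤ) • e) x)
      ((seg e a (L + 1) : Finset (Site d)) : Set (Site d)) := by
    intro x y h
    have h1 : V e a L x = V e a L y := dependsOn_V e a L (fun i hi => h i (by
      obtain ⟨j, hj, rfl⟩ := mem_seg.1 (Finset.mem_coe.1 hi)
      exact Finset.mem_coe.2 (mem_seg.2 ⟨j, by omega, rfl⟩)))
    have h2 : N 1 (a + (L : ℤ) • e) x = N 1 (a + (L : ℤ) • e) y :=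
      dependsOn_N 1 _ (fun i hi => h i (by
        have : i = a + (L : ℤ) • e := by simpa using hi
        subst this
        exact Finset.mem_coe.2 (mem_seg.2 ⟨L, by omega, rfl⟩)))
    simp only [h1, h2]
  rw [(coal e).op_mul (dependsOn_N 2 _) d1 (disjoint_seg_first he a (L + 1)),
    (coal e).op_mul (dependsOn_V e a L) (dependsOn_N 1 _) (disjoint_seg_last he a L),
    op_N e 2 (Or.inr rfl), op_N e 1 (Or.inl rfl)]
  funext x
  rw [op_V_succ' he a L, op_V_succ' he a (L + 1), op_V_succ he a L]
  have h4 : (1 / 4 : ℝ≥0∞) = 1 / 2 * (1 / 2) := by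
    rw [one_div, one_div, ← ENNReal.mul_inv (by simp) (by simp)]
    norm_num
  simp only
  rw [h4]
  ring

end Pool.Agent.Y779.Coal
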