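import Mathlib
import Pool.Agent.Y779.Coal

set_option autoImplicit false

open MeasureTheory ProbabilityTheory Filter Topology
open scoped ENNReal Pointwise

/-!
# Density of coalescing random walks
-/

namespace Pool.Agent.Y779.Coal

open Pool.Agent.H443R3

variable {d : ℕ}

/-! ### The survival probability of the dual walk -/

/-- `U n L / 4^n` is the probability that a lazy walk started from `L` avoids `0` for `n` steps. -/
def U (n L : ℕ) : ℕ := ∑ j ∈ Finset.range L, Nat.choose (2 * n + 1) (n + 1 + j)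

theorem U_zero_right (n : ℕ) : U n 0 = 0 := by simp [U]

theorem U_succ (n L : ℕ) : U n (L + 1) = U n L + Nat.choose (2 * n + 1) (n + 1 + L) := by
  simp [U, Finset.sum_range_succ]

theorem U_zero_left (L : ℕ) : U 0 (L + 1) = 1 := by
  induction L with
  | zero => simp [U]
  | succ L ih =>
    rw [U_succ, ih]
    have : Nat.choose (2 * 0 + 1) (0 + 1 + (L + 1)) = 0 := Nat.choose_eq_zero_of_lt (by omega)
    omega

theorem choose_step (n k : ℕ) : Nat.choose (n + 2) (k + 2) =
    Nat.choose n k + 2 * Nat.choose n (k + 1) + Nat.choose n (k + 2) := by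
  rw [Nat.choose_succ_succ' (n + 1) (k + 1), Nat.choose_succ_succ' n k,
    Nat.choose_succ_succ' n (k + 1)]
  ring

theorem U_rec (n L : ℕ) : U (n + 1) (L + 1) = U n L + 2 * U n (L + 1) + U n (L + 2) := by
  induction L with
  | zero =>
    rw [U_succ, U_zero_right, U_zero_right, U_succ n 1, U_succ n 0, U_zero_right]
    have h1 : Nat.choose (2 * (n + 1) + 1) (n + 1 + 1 + 0) =
        Nat.choose (2 * n + 1) n + 2 * Nat.choose (2 * n + 1) (n + 1) +
          Nat.choose (2 * n + 1) (n + 2) := by
      have := choose_step (2 * n + 1) n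
      have e1 : 2 * (n + 1) + 1 = 2 * n + 1 + 2 := by ring
      have e2 : n + 1 + 1 + 0 = n + 2 := by ring
      rw [e1, e2, this]
    have h2 : Nat.choose (2 * n + 1) n = Nat.choose (2 * n + 1) (n + 1) := by
      rw [← Nat.choose_symm_half n]
    rw [h1, h2]
    simp only [add_zero, zero_add]
    have e3 : n + 1 + 1 = n + 2 := by ring
    rw [e3]
    ring
  | succ L ih =>
    rw [U_succ (n + 1) (L + 1), ih, U_succ n L, U_succ n (L + 1), U_succ n (L + 2), U_succ n L,
      U_succ n (L + 1)]
    have h1 : Nat.choose (2 * (n + 1) + 1) (n + 1 + 1 + (L + 1)) =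
        Nat.choose (2 * n + 1) (n + 1 + L) + 2 * Nat.choose (2 * n + 1) (n + 1 + (L + 1)) +
          Nat.choose (2 * n + 1) (n + 1 + (L + 2)) := by
      have := choose_step (2 * n + 1) (n + 1 + L)
      have e1 : 2 * (n + 1) + 1 = 2 * n + 1 + 2 := by ring
      have e2 : n + 1 + 1 + (L + 1) = n + 1 + L + 2 := by ring
      rw [e1, e2, this]
      have e3 : n + 1 + (L + 1) = n + 1 + L + 1 := by ring
      have e4 : n + 1 + (L + 2) = n + 1 + L + 2 := by ring
      rw [e3, e4]
    rw [h1, U_succ n L]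
    ring

/-- `u n L = U n L / 4^n`. -/
noncomputable def u (n L : ℕ) : ℝ := U n L / 4 ^ n

theorem u_zero_right (n : ℕ) : u n 0 = 0 := by simp [u, U_zero_right]

theorem u_zero_left (L : ℕ) : u 0 (L + 1) = 1 := by simp [u, U_zero_left]

theorem u_rec (n L : ℕ) :
    u (n + 1) (L + 1) = 1 / 4 * (u n L + u n (L + 1) + u n (L + 1) + u n (L + 2)) := by
  unfold u
  rw [U_rec, pow_succ]
  push_cast
  field_simp
  ring

theorem u_one (n : ℕ) : u n 1 = 2 * Nat.centralBinom (n + 1) / 4 ^ (n + 1) := by
  have h : Nat.centralBinom (n + 1) = 2 * U n 1 := by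
    rw [Nat.centralBinom, U_succ, U_zero_right, zero_add, add_zero]
    have e1 : 2 * (n + 1) = 2 * n + 1 + 1 := by ring
    rw [e1, Nat.choose_succ_succ', ← Nat.choose_symm_half n]
    ring
  unfold u
  rw [h, pow_succ]
  push_cast
  field_simp
  ring

/-! ### Bounds for the central binomial coefficient -/

theorem cb_upper (m : ℕ) :
    (Nat.centralBinom m : ℝ) ^ 2 * (3 * m + 1) ≤ 16 ^ m := by
  induction m with
  | zero => simp
  | succ m ih =>
    have h : ((m : ℝ) + 1) * Nat.centralBinom (m + 1) = 2 * (2 * m + 1) * Nat.centralBinom m := by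
      exact_mod_cast Nat.succ_mul_centralBinom_succ m
    have hm : (0 : ℝ) < (m : ℝ) + 1 := by positivity
    have h2 : (Nat.centralBinom (m + 1) : ℝ) = 2 * (2 * m + 1) * Nat.centralBinom m / (m + 1) := by
      rw [eq_div_iff hm.ne', ← h]; ring
    rw [h2]
    push_cast
    rw [div_pow, div_mul_eq_mul_div, div_le_iff₀ (by positivity)]
    have hc : (0 : ℝ) ≤ (Nat.centralBinom m : ℝ) ^ 2 := by positivity
    have h3 : (2 * (2 * (m : ℝ) + 1) * Nat.centralBinom m) ^ 2 * (3 * (m + 1) + 1) =
        4 * ((Nat.centralBinom m : ℝ) ^ 2 * ((2 * m + 1) ^ 2 * (3 * m + 4))) := by ring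
    have h4 : (2 * (m : ℝ) + 1) ^ 2 * (3 * m + 4) ≤ 4 * ((3 * m + 1) * (m + 1) ^ 2) := by
      have : (0 : ℝ) ≤ m := Nat.cast_nonneg m
      nlinarith
    have h5 := mul_le_mul_of_nonneg_left h4 hc
    have h6 : (16 : ℝ) ^ (m + 1) * (m + 1) ^ 2 = 16 * (16 ^ m * (m + 1) ^ 2) := by ring
    have h7 := mul_le_mul_of_nonneg_right ih (by positivity : (0 : ℝ) ≤ (m + 1) ^ 2)
    rw [h3, h6]
    nlinarith

theorem cb_lower (m : ℕ) (hm : 1 ≤ m) :
    (16 : ℝ) ^ m ≤ 4 * m * (Nat.centralBinom m : ℝ) ^ 2 := by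
  induction m, hm using Nat.le_induction with
  | base => norm_num [Nat.centralBinom]
  | succ m hm ih =>
    have h : ((m : ℝ) + 1) * Nat.centralBinom (m + 1) = 2 * (2 * m + 1) * Nat.centralBinom m := by
      exact_mod_cast Nat.succ_mul_centralBinom_succ m
    have hm' : (0 : ℝ) < (m : ℝ) + 1 := by positivity
    have h2 : (Nat.centralBinom (m + 1) : ℝ) = 2 * (2 * m + 1) * Nat.centralBinom m / (m + 1) := by
      rw [eq_div_iff hm'.ne', ← h]; ring
    rw [h2]
    push_cast
    rw [div_pow, mul_div_assoc', le_div_iff₀ (by positivity)]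
    have hc : (0 : ℝ) ≤ (Nat.centralBinom m : ℝ) ^ 2 := by positivity
    have h7 := mul_le_mul_of_nonneg_right ih (by positivity : (0 : ℝ) ≤ (m + 1) ^ 2)
    have h3 : 4 * ((m : ℝ) + 1) * (2 * (2 * m + 1) * Nat.centralBinom m) ^ 2 =
        16 * ((Nat.centralBinom m : ℝ) ^ 2 * ((2 * m + 1) ^ 2 * (m + 1))) := by ring
    have h4 : 4 * (m : ℝ) * (m + 1) ^ 2 ≤ (2 * m + 1) ^ 2 * (m + 1) := by
      have : (0 : ℝ) ≤ m := Nat.cast_nonneg m
      nlinarith
    have h5 := mul_le_mul_of_nonneg_left h4 hc
    have h6 : (16 : ℝ) ^ (m + 1) * (m + 1) ^ 2 = 16 * (16 ^ m * (m + 1) ^ 2) := by ring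
    rw [h3, h6]
    nlinarith

/-- The density at time `t`: `ρ t = 2 C(2t, t) / 4^t`. -/
noncomputable def rho (t : ℕ) : ℝ := 2 * Nat.centralBinom t / 4 ^ t

theorem rho_nonneg (t : ℕ) : 0 ≤ rho t := by unfold rho; positivity

theorem rho_le (t : ℕ) : rho t ≤ 2 / √(3 * t + 1) := by
  have h := cb_upper t
  have h0 : (0 : ℝ) < 3 * t + 1 := by positivity
  have h1 : (Nat.centralBinom t : ℝ) * √(3 * t + 1) ≤ 4 ^ t := by
    apply le_of_sq_le_sq _ (by positivity)
    rw [mul_pow, Real.sq_sqrt h0.le, ← pow_mul, mul_comm t 2, pow_mul]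
    norm_num
    exact h
  unfold rho
  rw [div_le_div_iff₀ (by positivity) (by positivity)]
  nlinarith

theorem le_rho (t : ℕ) (ht : 1 ≤ t) : 1 / √t ≤ rho t := by
  have h := cb_lower t ht
  have h0 : (0 : ℝ) < t := by exact_mod_cast ht
  have h1 : (4 : ℝ) ^ t ≤ 2 * (Nat.centralBinom t : ℝ) * √t := by
    apply le_of_sq_le_sq _ (by positivity)
    rw [mul_pow, Real.sq_sqrt h0.le, ← pow_mul, mul_comm t 2, pow_mul]
    norm_num
    nlinarith
  unfold rho
  rw [div_le_div_iff₀ (by positivity) (by positivity)]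
  linarith

theorem rho_tendsto : Tendsto rho atTop (𝓝 0) := by
  have h1 : Tendsto (fun t : ℕ => 2 / √(3 * (t : ℝ) + 1)) atTop (𝓝 0) := by
    apply Tendsto.const_div_atTop
    apply Real.tendsto_sqrt_atTop.comp
    apply tendsto_atTop_add_const_right
    exact (tendsto_natCast_atTop_atTop).const_mul_atTop (by norm_num)
  exact squeeze_zero rho_nonneg rho_le h1

/-! ### The recursion for the probability of an empty interval -/

theorem V_le_one (e a : Site d) (L : ℕ) (x : Config d (Fin 3)) : V e a L x ≤ 1 := by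
  unfold V
  apply Finset.prod_le_one'
  intro j _
  unfold E
  split_ifs <;> simp

/-- The probability that an interval is empty at time `n`. -/
noncomputable def v (e : Site d) (μ : Measure (Config d (Fin 3))) (n : ℕ) (a : Site d) (L : ℕ) :
    ℝ≥0∞ := ∫⁻ x, V e a L x ∂((coal e).evolve^[n] μ)

theorem v_zero (e : Site d) (μ : Measure (Config d (Fin 3))) [IsProbabilityMeasure μ] (n : ℕ)
    (a : Site d) : v e μ n a 0 = 1 := by
  have := (coal e).isProbabilityMeasure_iterate μ n
  simp [v, V_zero]

theorem v_le_one (e : Site d) (μ : Measure (Config d (Fin 3))) [IsProbabilityMeasure μ] (n : ℕ)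
    (a : Site d) (L : ℕ) : v e μ n a L ≤ 1 := by
  have := (coal e).isProbabilityMeasure_iterate μ n
  calc v e μ n a L ≤ ∫⁻ _, 1 ∂((coal e).evolve^[n] μ) := lintegral_mono (V_le_one e a L)
    _ = 1 := by simp

theorem v_step (e : Site d) (μ : Measure (Config d (Fin 3))) (n : ℕ) (a : Site d) (L : ℕ) :
    v e μ (n + 1) a L = ∫⁻ x, (coal e).op (V e a L) x ∂((coal e).evolve^[n] μ) := by
  unfold v
  rw [Function.iterate_succ_apply',
    (coal e).lintegral_evolve _ (PCA.measurable_of_dependsOn (dependsOn_V e a L))]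

theorem v_rec {e : Site d} (he : e ≠ 0) (μ : Measure (Config d (Fin 3))) (n : ℕ) (a : Site d)
    (L : ℕ) : v e μ (n + 2) a (L + 1) = 1 / 4 * (v e μ (n + 1) a L + v e μ (n + 1) (a - e) (L + 1) +
      v e μ (n + 1) a (L + 1) + v e μ (n + 1) (a - e) (L + 2)) := by
  have hm : ∀ b K, Measurable ((coal e).op (V e b K)) := fun b K =>
    PCA.measurable_of_dependsOn ((coal e).op_dependsOn (dependsOn_V e b K))
  have h1 : v e μ (n + 2) a (L + 1) =
      ∫⁻ x, (coal e).op ((coal e).op (V e a (L + 1))) x ∂((coal e).evolve^[n] μ) := by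
    rw [v_step, Function.iterate_succ_apply',
      (coal e).lintegral_evolve _ (hm _ _)]
  rw [h1, op_op_V he]
  simp only [v_step]
  rw [lintegral_const_mul _ (by
      have := hm a L; have := hm (a - e) (L + 1); have := hm a (L + 1); have := hm (a - e) (L + 2)
      fun_prop),
    lintegral_add_right _ (hm _ _), lintegral_add_right _ (hm _ _), lintegral_add_right _ (hm _ _)]

theorem v_real_rec {e : Site d} (he : e ≠ 0) (μ : Measure (Config d (Fin 3)))
    [IsProbabilityMeasure μ] (n : ℕ) (a : Site d)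
    (L : ℕ) : (v e μ (n + 2) a (L + 1)).toReal =
      1 / 4 * ((v e μ (n + 1) a L).toReal + (v e μ (n + 1) (a - e) (L + 1)).toReal +
      (v e μ (n + 1) a (L + 1)).toReal + (v e μ (n + 1) (a - e) (L + 2)).toReal) := by
  have hf : ∀ b K, v e μ (n + 1) b K ≠ ∞ := fun b K =>
    ((v_le_one e μ (n + 1) b K).trans_lt ENNReal.one_lt_top).ne
  rw [v_rec he, ENNReal.toReal_mul, ENNReal.toReal_add (by simp [hf]) (hf _ _),
    ENNReal.toReal_add (by simp [hf]) (hf _ _), ENNReal.toReal_add (hf _ _) (hf _ _)]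
  norm_num

/-- The probability that an interval of length `L` is empty at time `n + 1` is at least
`1 - u n L`, from every initial law. -/
theorem le_v {e : Site d} (he : e ≠ 0) (μ : Measure (Config d (Fin 3)))
    [IsProbabilityMeasure μ] (n : ℕ) (a : Site d) (L : ℕ) :
    1 - u n L ≤ (v e μ (n + 1) a L).toReal := by
  induction n generalizing a L with
  | zero =>
    cases L with
    | zero => simp [v_zero, u_zero_right]
    | succ L => rw [u_zero_left]; simp
  | succ n ih =>
    cases L with
    | zero => simp [v_zero, u_zero_right]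
    | succ L =>
      rw [v_real_rec he, u_rec]
      have h1 := ih a L
      have h2 := ih (a - e) (L + 1)
      have h3 := ih a (L + 1)
      have h4 := ih (a - e) (L + 2)
      linarith

/-- The configuration in which every site holds a particle that will stay. -/
def full : Config d (Fin 3) := fun _ => 1

/-- Equality holds from the full configuration. -/
theorem v_full {e : Site d} (he : e ≠ 0) (n : ℕ) (a : Site d) (L : ℕ) :
    (v e (Measure.dirac full) (n + 1) a L).toReal = 1 - u n L := by
  induction n generalizing a L with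
  | zero =>
    cases L with
    | zero => simp [v_zero, u_zero_right]
    | succ L =>
      rw [u_zero_left, v_step]
      simp only [Function.iterate_zero, id]
      rw [lintegral_dirac' _ (PCA.measurable_of_dependsOn
        ((coal e).op_dependsOn (dependsOn_V e a (L + 1)))), op_V he]
      simp [N, full]
  | succ n ih =>
    cases L with
    | zero => simp [v_zero, u_zero_right]
    | succ L =>
      rw [v_real_rec he, u_rec, ih, ih, ih, ih]
      ring

end Pool.Agent.Y779.Coal
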